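import Mathlib

set_option autoImplicit false

namespace Pool.Agent.H.MP_708b53_co

/-- Points of the plane. -/
abbrev Pt := ℝ × ℝ

/-- Twice the signed area of the triangle `a b c`. -/
def det (a b c : Pt) : ℝ := (b.1 - a.1) * (c.2 - a.2) - (b.2 - a.2) * (c.1 - a.1)

/-- Orientation of an ordered triple: counterclockwise, clockwise or collinear. -/
noncomputable def orient (a b c : Pt) : SignType := SignType.sign (det a b c)

/-- `T` is a subconfiguration of `S`: it has the order type of a subset of `S`. -/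
def Sub (T S : Finset Pt) : Prop :=
  ∃ f : Pt → Pt, Set.InjOn f T ∧ Set.MapsTo f T S ∧
    ∀ a ∈ T, ∀ b ∈ T, ∀ c ∈ T, orient (f a) (f b) (f c) = orient a b c

/-- `T` and `S` have the same order type. -/
def Eqv (T S : Finset Pt) : Prop :=
  ∃ f : Pt → Pt, Set.BijOn f T S ∧
    ∀ a ∈ T, ∀ b ∈ T, ∀ c ∈ T, orient (f a) (f b) (f c) = orient a b c

/-- No three points collinear and every point a vertex of the convex hull. -/
def ConvexPos (G : Finset Pt) : Prop :=
  (∀ a ∈ G, ∀ b ∈ G, ∀ c ∈ G, a ≠ b → a ≠ c → b ≠ c → orient a b c ≠ 0) ∧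
    ∀ a ∈ G, a ∈ (convexHull ℝ (G : Set Pt)).extremePoints ℝ

/-- The class `C_k`: every subset in convex position has fewer than `k` points. -/
def InC (k : ℕ) (S : Finset Pt) : Prop := ∀ G ⊆ S, ConvexPos G → G.card < k

/-- `c_k(n)`: the number of order types of `n`-point configurations in `C_k`. -/
noncomputable def cnt (k n : ℕ) : ℕ :=
  Nat.card (Quot fun S T : {S : Finset Pt // S.card = n ∧ InC k S} => Eqv S.1 T.1)

end Pool.Agent.H.MP_708b53_co
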