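import Mathlib
import Pool.Agent.H.MP_708b53_co.D

set_option autoImplicit false

namespace Pool.Agent.H.MP_708b53_co
open Set

def Lv (S : Finset Pt) : Prop := ∀ p ∈ S, p.2 = 1 ∨ p.2 = 0 ∨ p.2 = -1

lemma or0 (a b c : Pt) : orient a b c = 0 ↔ det a b c = 0 := by simp [orient]

lemma det_lv {a b c : Pt} (h1 : a.2 = b.2) (h2 : a.2 = c.2) : det a b c = 0 := by
  simp [det, ← h1, ← h2]

lemma lv_det {a b c : Pt} (h1 : a.2 = b.2) (ab : a ≠ b) (h : det a b c = 0) : a.2 = c.2 := by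
  have : b.1 - a.1 ≠ 0 := fun e => ab (Prod.ext (by linarith) h1)
  simp only [det, ← h1, sub_self, zero_mul, sub_zero] at h
  have := (mul_eq_zero.1 h).resolve_left this
  linarith

lemma two (G : Finset Pt) (t : ℝ) (h : 1 < (G.filter fun p => p.2 = t).card) :
    ∃ x y : ℝ, x < y ∧ (x, t) ∈ G ∧ (y, t) ∈ G := by
  obtain ⟨⟨x, s⟩, hp, ⟨y, u⟩, hq, ne⟩ := Finset.one_lt_card.1 h
  simp only [Finset.mem_filter] at hp hq
  obtain ⟨hp, rfl⟩ := hp
  obtain ⟨hq, rfl⟩ := hq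
  rcases lt_trichotomy x y with a | a | a
  · exact ⟨x, y, a, hp, hq⟩
  · exact absurd (by rw [a]) ne
  · exact ⟨y, x, a, hq, hp⟩

lemma nohex (S : Finset Pt) (W : ℝ) (h : Lv S)
    (hA : ∀ x y : ℝ, x < y → (x, (1 : ℝ)) ∈ S → (y, (1 : ℝ)) ∈ S → x + W ≤ y)
    (hM : ∀ x y : ℝ, (x, (0 : ℝ)) ∈ S → (y, (0 : ℝ)) ∈ S → 2 * y ≤ 2 * x + W) : InC 6 S := by
  intro G hG ⟨g, cv⟩
  by_contra hc
  have le : ∀ t : ℝ, (G.filter fun p => p.2 = t).card ≤ 2 := by
    intro t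
    by_contra h2
    obtain ⟨a, b, c, ha, hb, hc, ab, ac, bc⟩ := Finset.two_lt_card_iff.1 (not_le.1 h2)
    simp only [Finset.mem_filter] at ha hb hc
    exact g a ha.1 b hb.1 c hc.1 ab ac bc
      ((or0 _ _ _).2 (det_lv (ha.2.trans hb.2.symm) (ha.2.trans hc.2.symm)))
  have sub : G ⊆ (G.filter fun p => p.2 = 1) ∪ (G.filter fun p => p.2 = 0) ∪
      (G.filter fun p => p.2 = -1) := by
    intro p hp
    have := h p (hG hp)
    simp only [Finset.mem_union, Finset.mem_filter]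
    tauto
  have c1 := (Finset.card_le_card sub).trans (Finset.card_union_le _ _)
  have c2 := Finset.card_union_le (G.filter fun p => p.2 = 1) (G.filter fun p => p.2 = 0)
  have l1 := le 1
  have l2 := le 0
  have l3 := le (-1)
  obtain ⟨a1, a2, ha, pa1, pa2⟩ := two G 1 (by omega)
  obtain ⟨m1, m2, hm, pm1, pm2⟩ := two G 0 (by omega)
  obtain ⟨c1, c2, hc, pc1, pc2⟩ := two G (-1) (by omega)
  have w1 := hA _ _ ha (hG pa1) (hG pa2)
  have w2 := hM _ _ (hG pm1) (hG pm2)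
  have mem : ∀ p ∈ G, p ∈ convexHull ℝ (G : Set Pt) := fun p hp => subset_convexHull ℝ _ hp
  have mid : ∀ a c : ℝ, (a, (1 : ℝ)) ∈ G → (c, (-1 : ℝ)) ∈ G →
      (((a + c) / 2, (0 : ℝ)) : Pt) ∈ openSegment ℝ ((a, 1) : Pt) (c, -1) := fun a c _ _ =>
    ⟨1 / 2, 1 / 2, by norm_num, by norm_num, by norm_num, by ext <;> simp <;> ring⟩
  have mid' : ∀ a c : ℝ, (a, (1 : ℝ)) ∈ G → (c, (-1 : ℝ)) ∈ G →
      (((a + c) / 2, (0 : ℝ)) : Pt) ∈ convexHull ℝ (G : Set Pt) := fun a c h1 h2 =>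
    (convex_convexHull ℝ _).openSegment_subset (mem _ h1) (mem _ h2) (mid a c h1 h2)
  have btw : ∀ x y z : ℝ, x < y → y < z → ((y, 0) : Pt) ∈ openSegment ℝ ((x, 0) : Pt) (z, 0) := by
    intro x y z h1 h2
    have : 0 < z - x := by linarith
    refine ⟨(z - y) / (z - x), (y - x) / (z - x), div_pos (by linarith) this,
      div_pos (by linarith) this, by field_simp; ring, ?_⟩
    ext
    · simp only [Prod.fst_add, Prod.smul_fst, smul_eq_mul]; field_simp; ring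
    · simp
  rcases lt_trichotomy m2 ((a2 + c2) / 2) with a | a | a
  · have := (cv _ pm2).2 (mem _ pm1) (mid' _ _ pa2 pc2) (btw _ _ _ hm a)
    exact hm.ne (congrArg Prod.fst this)
  · have := (cv _ pm2).2 (mem _ pa2) (mem _ pc2) (by rw [a]; exact mid _ _ pa2 pc2)
    simpa using congrArg Prod.snd this
  · have b : (a1 + c1) / 2 < m1 := by linarith
    have := (cv _ pm1).2 (mid' _ _ pa1 pc1) (mem _ pm2) (btw _ _ _ b hm)
    exact b.ne (congrArg Prod.fst this)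

structure Emb (f : Pt → Pt) (T S : Finset Pt) : Prop where
  inj : InjOn f T
  maps : MapsTo f T S
  ori : ∀ a ∈ T, ∀ b ∈ T, ∀ c ∈ T, orient (f a) (f b) (f c) = orient a b c

lemma Emb.col {f : Pt → Pt} {T S : Finset Pt} (e : Emb f T S) {a b c : Pt} (ha : a ∈ T)
    (hb : b ∈ T) (hc : c ∈ T) : det (f a) (f b) (f c) = 0 ↔ det a b c = 0 := by
  rw [← or0, ← or0, e.ori a ha b hb c hc]

def Big (T : Finset Pt) : Prop := ∀ p ∈ T, 3 < (T.filter fun q => q.2 = p.2).card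

lemma same {f : Pt → Pt} {T S : Finset Pt} (e : Emb f T S) (hS : Lv S) (hT : Big T) {p q : Pt}
    (hp : p ∈ T) (hq : q ∈ T) (h : p.2 = q.2) : (f p).2 = (f q).2 := by
  obtain ⟨a, ha, b, hb, ab, e2⟩ := Finset.exists_ne_map_eq_of_card_lt_of_maps_to
    (s := T.filter fun q => q.2 = p.2) (t := ({1, 0, -1} : Finset ℝ))
    (lt_of_le_of_lt Finset.card_le_three (hT p hp)) (f := fun q => (f q).2)
    (fun q hq => by simpa using hS _ (e.maps (Finset.mem_filter.1 hq).1))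
  simp only [Finset.mem_filter] at ha hb
  have k : ∀ r ∈ T, r.2 = p.2 → (f a).2 = (f r).2 := fun r hr h2 =>
    lv_det e2 (fun e3 => ab (e.inj ha.1 hb.1 e3))
      ((e.col ha.1 hb.1 hr).2 (det_lv (ha.2.trans hb.2.symm) (ha.2.trans h2.symm)))
  exact (k p hp rfl).symm.trans (k q hq h.symm)

lemma diff {f : Pt → Pt} {T S : Finset Pt} (e : Emb f T S) (hS : Lv S) (hT : Big T) {p q : Pt}
    (hp : p ∈ T) (hq : q ∈ T) (h : (f p).2 = (f q).2) : p.2 = q.2 := by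
  obtain ⟨a, ha, ne⟩ := Finset.exists_mem_ne (lt_trans (by norm_num) (hT p hp)) p
  simp only [Finset.mem_filter] at ha
  exact lv_det ha.2.symm ne.symm
    ((e.col hp ha.1 hq).1 (det_lv (same e hS hT hp ha.1 ha.2.symm) h))

def Nb (S : Finset Pt) (p q : Pt) : Prop :=
  p ∈ S ∧ q ∈ S ∧ p.2 ≠ q.2 ∧ ∃ r ∈ S, r.2 ≠ p.2 ∧ r.2 ≠ q.2 ∧ det p q r = 0

lemma nb_map {f : Pt → Pt} {T S : Finset Pt} (e : Emb f T S) (hS : Lv S) (hT : Big T) {p q : Pt}
    (h : Nb T p q) : Nb S (f p) (f q) := by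
  obtain ⟨hp, hq, ne, r, hr, r1, r2, d⟩ := h
  exact ⟨e.maps hp, e.maps hq, fun a => ne (diff e hS hT hp hq a), f r, e.maps hr,
    fun a => r1 (diff e hS hT hr hp a), fun a => r2 (diff e hS hT hr hq a),
    (e.col hp hq hr).2 d⟩

lemma Nb.symm {S : Finset Pt} {p q : Pt} (h : Nb S p q) : Nb S q p := by
  obtain ⟨hp, hq, ne, r, hr, r1, r2, d⟩ := h
  refine ⟨hq, hp, ne.symm, r, hr, r2, r1, ?_⟩
  simp only [det] at d ⊢
  linarith

def pA (N i : ℕ) : Pt := (2 * N * i, 1)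
def pM (j : ℕ) : Pt := (j, 0)
def pC (N : ℕ) (e : ℕ × ℕ) : Pt := (2 * e.2 - 2 * N * e.1, -1)

noncomputable def cfg (N k : ℕ) (E : Finset (ℕ × ℕ)) : Finset Pt :=
  (Finset.range k).image (pA N) ∪ (Finset.range N).image pM ∪ E.image (pC N)

lemma mem_cfg {N k : ℕ} {E : Finset (ℕ × ℕ)} {p : Pt} : p ∈ cfg N k E ↔
    (∃ i < k, p = pA N i) ∨ (∃ j < N, p = pM j) ∨ ∃ e ∈ E, p = pC N e := by
  simp only [cfg, Finset.mem_union, Finset.mem_image, Finset.mem_range, or_assoc, eq_comm]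

lemma arith {N i j i' j' : ℕ} (h1 : j < N) (h2 : j' < N)
    (h : (N : ℝ) * i + j' = N * i' + j) : i = i' ∧ j = j' := by
  have h3 : N * i + j' = N * i' + j := by exact_mod_cast h
  have : i = i' := by
    rcases lt_trichotomy i i' with a | a | a
    · have := Nat.mul_le_mul_left N (Nat.succ_le_of_lt a)
      rw [Nat.mul_succ] at this
      omega
    · exact a
    · have := Nat.mul_le_mul_left N (Nat.succ_le_of_lt a)
      rw [Nat.mul_succ] at this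
      omega
  subst this
  exact ⟨rfl, by omega⟩

lemma pA_inj {N : ℕ} (h : 0 < N) : Function.Injective (pA N) := by
  intro i j e
  have := congrArg Prod.fst e
  simp only [pA] at this
  exact (arith h h (by linarith)).1

lemma pM_inj : Function.Injective pM := by
  intro i j e
  have := congrArg Prod.fst e
  simpa [pM] using this

lemma pC_inj {N : ℕ} {e e' : ℕ × ℕ} (h : e.2 < N) (h' : e'.2 < N) (a : pC N e = pC N e') :
    e = e' := by
  have := congrArg Prod.fst a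
  simp only [pC] at this
  have := arith (i := e.1) (i' := e'.1) h h' (by linarith)
  exact Prod.ext this.1 this.2

lemma cfg_lv (N k : ℕ) (E : Finset (ℕ × ℕ)) : Lv (cfg N k E) := by
  intro p hp
  rcases mem_cfg.1 hp with ⟨i, -, rfl⟩ | ⟨i, -, rfl⟩ | ⟨i, -, rfl⟩ <;> simp [pA, pM, pC]

lemma lvA (N k : ℕ) (E : Finset (ℕ × ℕ)) :
    (cfg N k E).filter (fun q => q.2 = 1) = (Finset.range k).image (pA N) := by
  ext p
  simp only [Finset.mem_filter, mem_cfg, Finset.mem_image, Finset.mem_range]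
  constructor
  · rintro ⟨⟨i, a, rfl⟩ | ⟨i, a, rfl⟩ | ⟨i, a, rfl⟩, h⟩
    · exact ⟨i, a, rfl⟩
    · simp [pM] at h
    · simp only [pC] at h; norm_num at h
  · rintro ⟨i, a, rfl⟩
    exact ⟨Or.inl ⟨i, a, rfl⟩, rfl⟩

lemma lvM (N k : ℕ) (E : Finset (ℕ × ℕ)) :
    (cfg N k E).filter (fun q => q.2 = 0) = (Finset.range N).image pM := by
  ext p
  simp only [Finset.mem_filter, mem_cfg, Finset.mem_image, Finset.mem_range]
  constructor
  · rintro ⟨⟨i, a, rfl⟩ | ⟨i, a, rfl⟩ | ⟨i, a, rfl⟩, h⟩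
    · simp [pA] at h
    · exact ⟨i, a, rfl⟩
    · simp [pC] at h
  · rintro ⟨i, a, rfl⟩
    exact ⟨Or.inr (Or.inl ⟨i, a, rfl⟩), rfl⟩

lemma lvC (N k : ℕ) (E : Finset (ℕ × ℕ)) :
    (cfg N k E).filter (fun q => q.2 = -1) = E.image (pC N) := by
  ext p
  simp only [Finset.mem_filter, mem_cfg, Finset.mem_image]
  constructor
  · rintro ⟨⟨i, a, rfl⟩ | ⟨i, a, rfl⟩ | ⟨i, a, rfl⟩, h⟩
    · simp only [pA] at h; norm_num at h
    · simp [pM] at h
    · exact ⟨i, a, rfl⟩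
  · rintro ⟨i, a, rfl⟩
    exact ⟨Or.inr (Or.inr ⟨i, a, rfl⟩), rfl⟩

lemma cdA {N : ℕ} (h : 0 < N) (k : ℕ) (E : Finset (ℕ × ℕ)) :
    ((cfg N k E).filter fun q => q.2 = 1).card = k := by
  rw [lvA, Finset.card_image_of_injective _ (pA_inj h), Finset.card_range]

lemma cdM (N k : ℕ) (E : Finset (ℕ × ℕ)) : ((cfg N k E).filter fun q => q.2 = 0).card = N := by
  rw [lvM, Finset.card_image_of_injective _ pM_inj, Finset.card_range]

lemma cdC (N k : ℕ) (E : Finset (ℕ × ℕ)) (h : ∀ e ∈ E, e.2 < N) :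
    ((cfg N k E).filter fun q => q.2 = -1).card = E.card := by
  rw [lvC, Finset.card_image_of_injOn fun a ha b hb e => pC_inj (h a ha) (h b hb) e]

lemma cfg_big {N k : ℕ} {E : Finset (ℕ × ℕ)} (h1 : 3 < N) (h2 : 3 < k) (h3 : 3 < E.card)
    (h : ∀ e ∈ E, e.2 < N) : Big (cfg N k E) := by
  intro p hp
  rcases cfg_lv N k E p hp with a | a | a <;> rw [a]
  · rwa [cdA (by omega)]
  · rwa [cdM]
  · rwa [cdC _ _ _ h]

lemma cfg_in (N k : ℕ) (E : Finset (ℕ × ℕ)) : InC 6 (cfg N k E) := by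
  apply nohex _ (2 * N) (cfg_lv N k E)
  · intro x y h hx hy
    have h1 : (x, (1 : ℝ)) ∈ (cfg N k E).filter (fun q => q.2 = 1) := Finset.mem_filter.2 ⟨hx, rfl⟩
    have h2 : (y, (1 : ℝ)) ∈ (cfg N k E).filter (fun q => q.2 = 1) := Finset.mem_filter.2 ⟨hy, rfl⟩
    rw [lvA] at h1 h2
    obtain ⟨i, -, e1⟩ := Finset.mem_image.1 h1
    obtain ⟨j, -, e2⟩ := Finset.mem_image.1 h2
    obtain rfl : 2 * (N : ℝ) * i = x := congrArg Prod.fst e1
    obtain rfl : 2 * (N : ℝ) * j = y := congrArg Prod.fst e2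
    have hN : (0 : ℝ) ≤ 2 * N := by positivity
    have : (i : ℝ) + 1 ≤ j := by exact_mod_cast Nat.succ_le_of_lt (Nat.cast_lt.1 (lt_of_mul_lt_mul_left h hN))
    nlinarith
  · intro x y hx hy
    have h1 : (x, (0 : ℝ)) ∈ (cfg N k E).filter (fun q => q.2 = 0) := Finset.mem_filter.2 ⟨hx, rfl⟩
    have h2 : (y, (0 : ℝ)) ∈ (cfg N k E).filter (fun q => q.2 = 0) := Finset.mem_filter.2 ⟨hy, rfl⟩
    rw [lvM] at h1 h2
    obtain ⟨i, -, e1⟩ := Finset.mem_image.1 h1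
    obtain ⟨j, hj, e2⟩ := Finset.mem_image.1 h2
    obtain rfl : (i : ℝ) = x := congrArg Prod.fst e1
    obtain rfl : (j : ℝ) = y := congrArg Prod.fst e2
    have : (j : ℝ) < N := by exact_mod_cast Finset.mem_range.1 hj
    have : (0 : ℝ) ≤ i := by positivity
    linarith

lemma tri {N i j : ℕ} {e : ℕ × ℕ} (h1 : j < N) (h2 : e.2 < N) :
    det (pA N i) (pM j) (pC N e) = 0 ↔ e = (i, j) := by
  constructor
  · intro h
    simp only [det, pA, pM, pC] at h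
    have := arith (i := i) (i' := e.1) h1 h2 (by linarith)
    exact Prod.ext this.1.symm this.2.symm
  · rintro rfl
    simp only [det, pA, pM, pC]; ring

lemma nb_iff {N k i j : ℕ} {E : Finset (ℕ × ℕ)} (h : ∀ e ∈ E, e.2 < N) (hi : i < k) (hj : j < N) :
    Nb (cfg N k E) (pA N i) (pM j) ↔ (i, j) ∈ E := by
  constructor
  · rintro ⟨-, -, -, r, hr, r1, r2, d⟩
    rcases mem_cfg.1 hr with ⟨a, -, rfl⟩ | ⟨a, -, rfl⟩ | ⟨a, ha, rfl⟩
    · exact absurd rfl r1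
    · exact absurd rfl r2
    · rwa [← (tri hj (h a ha)).1 d]
  · intro a
    refine ⟨mem_cfg.2 (Or.inl ⟨i, hi, rfl⟩), mem_cfg.2 (Or.inr (Or.inl ⟨j, hj, rfl⟩)),
      by simp [pA, pM], _, mem_cfg.2 (Or.inr (Or.inr ⟨_, a, rfl⟩)), ?_, by simp [pC, pM],
      (tri hj hj).2 rfl⟩
    simp only [pA, pC]; norm_num

lemma nb_C {N k : ℕ} {E : Finset (ℕ × ℕ)} (h : ∀ e ∈ E, e.2 < N) {e : ℕ × ℕ} (he : e ∈ E) {q : Pt}
    (a : Nb (cfg N k E) (pC N e) q) : q = pA N e.1 ∨ q = pM e.2 := by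
  obtain ⟨-, hq, ne, r, hr, r1, r2, d⟩ := a
  rcases mem_cfg.1 hq with ⟨i, -, rfl⟩ | ⟨i, hi, rfl⟩ | ⟨i, -, rfl⟩ <;>
    rcases mem_cfg.1 hr with ⟨j, -, rfl⟩ | ⟨j, hj, rfl⟩ | ⟨j, -, rfl⟩ <;>
    first | exact absurd rfl r1 | exact absurd rfl r2 | exact absurd rfl ne | skip
  · left
    rw [(tri (i := i) hj (h e he)).1 (by simp only [det] at d ⊢; linarith)]
  · right
    rw [(tri (i := j) hi (h e he)).1 (by simp only [det] at d ⊢; linarith)]

end Pool.Agent.H.MP_708b53_co
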