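import Mathlib
import Pool.Agent.H.MP_708b53_co.A

set_option autoImplicit false

namespace Pool.Agent.H.MP_708b53_co
open Set

def nx (N i : ℕ) : ℕ := if i + 1 = N then 0 else i + 1

def cyc (N : ℕ) : Finset (ℕ × ℕ) :=
  (Finset.range N).image (fun i => (i, i)) ∪ (Finset.range N).image fun i => (i, nx N i)

lemma mem_cyc {N i j : ℕ} : (i, j) ∈ cyc N ↔ i < N ∧ (j = i ∨ j = nx N i) := by
  simp only [cyc, Finset.mem_union, Finset.mem_image, Finset.mem_range, Prod.mk.injEq]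
  constructor
  · rintro (⟨a, h, rfl, rfl⟩ | ⟨a, h, rfl, rfl⟩)
    exacts [⟨h, Or.inl rfl⟩, ⟨h, Or.inr rfl⟩]
  · rintro ⟨h, rfl | rfl⟩
    exacts [Or.inl ⟨_, h, rfl, rfl⟩, Or.inr ⟨_, h, rfl, rfl⟩]

lemma nx_lt {N i : ℕ} (h : i < N) : nx N i < N := by unfold nx; split_ifs <;> omega

lemma cyc_lt (N : ℕ) : ∀ e ∈ cyc N, e.2 < N := by
  rintro ⟨i, j⟩ h
  obtain ⟨h1, h2 | h2⟩ := mem_cyc.1 h
  exacts [h2 ▸ h1, h2 ▸ nx_lt h1]

noncomputable def Z (N : ℕ) : Finset Pt := cfg N N (cyc N)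

lemma Z_big {N : ℕ} (h : 3 < N) : Big (Z N) := by
  refine cfg_big h h (lt_of_lt_of_le ?_ (Finset.card_le_card Finset.subset_union_left)) (cyc_lt N)
  rwa [Finset.card_image_of_injective _ fun a b e => congrArg Prod.fst e, Finset.card_range]

lemma nbZ {N i j : ℕ} (hi : i < N) (hj : j < N) :
    Nb (Z N) (pA N i) (pM j) ↔ j = i ∨ j = nx N i := by
  rw [Z, nb_iff (cyc_lt N) hi hj, mem_cyc]; simp [hi]

lemma AM {N : ℕ} {p : Pt} (hp : p ∈ Z N) (h : p.2 ≠ -1) :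
    (∃ i < N, p = pA N i) ∨ ∃ j < N, p = pM j := by
  rcases mem_cfg.1 hp with a | a | ⟨e, -, rfl⟩
  exacts [Or.inl a, Or.inr a, absurd rfl h]

lemma F1 {N : ℕ} (hN : 3 < N) {p : Pt} (hp : p ∈ Z N) (h : p.2 ≠ -1) :
    ∃ q r, q ≠ r ∧ q.2 = r.2 ∧ q.2 ≠ -1 ∧ Nb (Z N) p q ∧ Nb (Z N) p r := by
  rcases AM hp h with ⟨i, hi, rfl⟩ | ⟨j, hj, rfl⟩
  · refine ⟨pM i, pM (nx N i), fun e => ?_, rfl, by simp [pM], (nbZ hi hi).2 (Or.inl rfl),
      (nbZ hi (nx_lt hi)).2 (Or.inr rfl)⟩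
    have := pM_inj e
    unfold nx at this
    split_ifs at this <;> omega
  · have hl : (if j = 0 then N - 1 else j - 1) < N := by split_ifs <;> omega
    refine ⟨pA N j, pA N (if j = 0 then N - 1 else j - 1), fun e => ?_, rfl, ?_,
      ((nbZ hj hj).2 (Or.inl rfl)).symm, ((nbZ hl hj).2 (Or.inr ?_)).symm⟩
    · have := pA_inj (by omega) e
      split_ifs at this <;> omega
    · simp only [pA]; norm_num
    · unfold nx; split_ifs <;> omega

lemma F3 {N : ℕ} {p x y z : Pt} (h : p.2 ≠ -1) (hx : Nb (Z N) p x) (hy : Nb (Z N) p y)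
    (hz : Nb (Z N) p z) (lx : x.2 ≠ -1) (ly : y.2 ≠ -1) (lz : z.2 ≠ -1) :
    x = y ∨ x = z ∨ y = z := by
  rcases AM hx.1 h with ⟨i, hi, rfl⟩ | ⟨j, hj, rfl⟩
  · have k : ∀ q, Nb (Z N) (pA N i) q → q.2 ≠ -1 → q = pM i ∨ q = pM (nx N i) := by
      intro q hq lq
      rcases AM hq.2.1 lq with ⟨a, -, rfl⟩ | ⟨a, ha, rfl⟩
      · exact absurd rfl hq.2.2.1
      · exact ((nbZ hi ha).1 hq).imp (congrArg _) (congrArg _)
    rcases k x hx lx with rfl | rfl <;> rcases k y hy ly with rfl | rfl <;>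
      rcases k z hz lz with rfl | rfl <;> simp
  · have k : ∀ q, Nb (Z N) (pM j) q → q.2 ≠ -1 →
        q = pA N j ∨ q = pA N (if j = 0 then N - 1 else j - 1) := by
      intro q hq lq
      rcases AM hq.2.1 lq with ⟨a, ha, rfl⟩ | ⟨a, -, rfl⟩
      · refine ((nbZ ha hj).1 hq.symm).imp (fun e => by rw [e]) fun e => congrArg _ ?_
        unfold nx at e
        split_ifs at e ⊢ <;> omega
      · exact absurd rfl hq.2.2.1
    rcases k x hx lx with rfl | rfl <;> rcases k y hy ly with rfl | rfl <;>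
      rcases k z hz lz with rfl | rfl <;> simp

lemma F4 {N : ℕ} (I : Pt → Prop) (cl : ∀ p q, I p → Nb (Z N) p q → q.2 ≠ -1 → I q) {p : Pt}
    (hp : p ∈ Z N) (lp : p.2 ≠ -1) (h : I p) : ∀ q ∈ Z N, q.2 ≠ -1 → I q := by
  have lA : ∀ i, (pA N i).2 ≠ -1 := fun i => by simp only [pA]; norm_num
  have lM : ∀ i, (pM i).2 ≠ -1 := fun i => by simp [pM]
  have am : ∀ i < N, I (pA N i) → I (pM i) := fun i hi a =>
    cl _ _ a ((nbZ hi hi).2 (Or.inl rfl)) (lM _)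
  have ma : ∀ i < N, I (pM i) → I (pA N i) := fun i hi a =>
    cl _ _ a ((nbZ hi hi).2 (Or.inl rfl)).symm (lA _)
  have st : ∀ i, i + 1 < N → (I (pA N i) ↔ I (pA N (i + 1))) := by
    intro i hi
    have n : Nb (Z N) (pA N i) (pM (i + 1)) :=
      (nbZ (by omega) hi).2 (Or.inr (by unfold nx; split_ifs <;> omega))
    exact ⟨fun a => ma _ hi (cl _ _ a n (lM _)), fun a => cl _ _ (am _ hi a) n.symm (lA _)⟩
  have all : ∀ i < N, (I (pA N 0) ↔ I (pA N i)) := by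
    intro i
    induction i with
    | zero => simp
    | succ i ih => exact fun hi => (ih (by omega)).trans (st i hi)
  have h0 : I (pA N 0) := by
    rcases AM hp lp with ⟨i, hi, rfl⟩ | ⟨i, hi, rfl⟩
    exacts [(all i hi).2 h, (all i hi).2 (ma i hi h)]
  intro q hq lq
  rcases AM hq lq with ⟨i, hi, rfl⟩ | ⟨i, hi, rfl⟩
  exacts [(all i hi).1 h0, am i hi ((all i hi).1 h0)]

lemma cdAM {N : ℕ} (h : 0 < N) : ((Z N).filter fun q => q.2 ≠ -1).card = 2 * N := by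
  have e : (Z N).filter (fun q => q.2 ≠ -1) =
      (Z N).filter (fun q => q.2 = 1) ∪ (Z N).filter fun q => q.2 = 0 := by
    ext p
    simp only [Finset.mem_filter, Finset.mem_union]
    constructor
    · rintro ⟨a, b⟩
      have := cfg_lv _ _ _ p a
      tauto
    · rintro (⟨a, b⟩ | ⟨a, b⟩) <;> refine ⟨a, ?_⟩ <;> rw [b] <;> norm_num
  rw [e, Finset.card_union_of_disjoint, Z, cdA h, cdM, two_mul]
  rw [Finset.disjoint_filter]
  intro x _ a b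
  rw [a] at b
  norm_num at b

lemma anti {N K : ℕ} (hN : 3 < N) (hK : 3 < K) (h : Sub (Z N) (Z K)) : N = K := by
  obtain ⟨f, f1, f2, f3⟩ := h
  have e : Emb f (Z N) (Z K) := ⟨f1, f2, f3⟩
  have lv : Lv (Z K) := cfg_lv _ _ _
  have bg := Z_big hN
  have F2 : ∀ p ∈ Z N, p.2 ≠ -1 → (f p).2 ≠ -1 := by
    intro p hp lp a
    obtain ⟨q, r, qr, l, -, nq, nr⟩ := F1 hN hp lp
    have l' := same e lv bg nq.2.1 nr.2.1 l
    have ne : f q ≠ f r := fun b => qr (f1 nq.2.1 nr.2.1 b)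
    have nq' := nb_map e lv bg nq
    have nr' := nb_map e lv bg nr
    rcases mem_cfg.1 (f2 hp) with ⟨i, -, b⟩ | ⟨i, -, b⟩ | ⟨i, hi, b⟩
    · rw [b] at a; simp only [pA] at a; norm_num at a
    · rw [b] at a; simp [pM] at a
    · rw [b] at nq' nr'
      rcases nb_C (cyc_lt K) hi nq' with c | c <;> rcases nb_C (cyc_lt K) hi nr' with d | d <;>
        simp_all [pA, pM]
  have m0 : pM 0 ∈ Z N := mem_cfg.2 (Or.inr (Or.inl ⟨0, by omega, rfl⟩))
  have sj := F4 (N := K) (fun p => ∃ q ∈ Z N, q.2 ≠ -1 ∧ f q = p) (by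
    rintro _ z ⟨p, hp, lp, rfl⟩ nz lz
    obtain ⟨q, r, qr, l, lq, nq, nr⟩ := F1 hN hp lp
    rcases F3 (F2 p hp lp) (nb_map e lv bg nq) (nb_map e lv bg nr) nz (F2 q nq.2.1 lq)
      (F2 r nr.2.1 (l ▸ lq)) lz with a | a | a
    · exact absurd (f1 nq.2.1 nr.2.1 a) qr
    · exact ⟨q, nq.2.1, lq, a⟩
    · exact ⟨r, nr.2.1, l ▸ lq, a⟩) (f2 m0) (F2 _ m0 (by simp [pM])) ⟨_, m0, by simp [pM], rfl⟩
  have := Finset.card_bij (s := (Z N).filter fun q => q.2 ≠ -1) (t := (Z K).filter fun q => q.2 ≠ -1)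
    (fun p _ => f p)
    (fun p hp => Finset.mem_filter.2 ⟨f2 (Finset.mem_filter.1 hp).1,
      F2 p (Finset.mem_filter.1 hp).1 (Finset.mem_filter.1 hp).2⟩)
    (fun a ha b hb c => f1 (Finset.mem_filter.1 ha).1 (Finset.mem_filter.1 hb).1 c)
    (fun z hz => by
      obtain ⟨q, a, b, c⟩ := sj z (Finset.mem_filter.1 hz).1 (Finset.mem_filter.1 hz).2
      exact ⟨q, Finset.mem_filter.2 ⟨a, b⟩, c⟩)
  rw [cdAM (by omega), cdAM (by omega)] at this
  omega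

lemma main1 : ∃ S : ℕ → Finset Pt, (∀ i, InC 6 (S i)) ∧ ∀ i j, i ≠ j → ¬ Sub (S i) (S j) :=
  ⟨fun i => Z (i + 4), fun _ => cfg_in _ _ _, fun i j ij h =>
    ij (by have := anti (by omega) (by omega) h; omega)⟩

end Pool.Agent.H.MP_708b53_co
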