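import Mathlib
import Pool.Agent.H.MP_708b53_co.A

set_option autoImplicit false

namespace Pool.Agent.H.MP_708b53_co
open Set Filter

lemma idm (k : ℕ) (α : ℕ → ℕ) (h1 : ∀ i < k, α i < k) (h2 : ∀ i j, i < j → j < k → α i < α j) :
    ∀ i < k, α i = i := by
  have step : ∀ d i, i + d < k → α i + d ≤ α (i + d) := by
    intro d
    induction d with
    | zero => simp
    | succ d ih =>
      intro i hi
      have a := ih i (by omega)
      have b := h2 (i + d) (i + (d + 1)) (by omega) hi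
      omega
  intro i hi
  have a := step i 0 (by omega)
  have b := step (k - 1 - i) i (by omega)
  have c := h1 (i + (k - 1 - i)) (by omega)
  rw [Nat.zero_add] at a
  omega

lemma lv_card {f : Pt → Pt} {T S : Finset Pt} (e : Emb f T S) (hS : Lv S) (hT : Big T) {p : Pt}
    (hp : p ∈ T) : (T.filter fun q => q.2 = p.2).card ≤ (S.filter fun q => q.2 = (f p).2).card :=
  Finset.card_le_card_of_injOn f
    (fun q hq => by
      have hq' := Finset.mem_filter.1 (Finset.mem_coe.1 hq)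
      exact Finset.mem_coe.2 (Finset.mem_filter.2 ⟨e.maps hq'.1, same e hS hT hq'.1 hp hq'.2⟩))
    (e.inj.mono fun q hq => (Finset.mem_filter.1 (Finset.mem_coe.1 hq)).1)

lemma rigid {N k : ℕ} {E F : Finset (ℕ × ℕ)} (hk : 3 < k) (kN : k < N) (NE : N < E.card)
    (hE : E ⊆ Finset.range k ×ˢ Finset.range N) (hF : ∀ e ∈ F, e.2 < N) {f : Pt → Pt}
    (e : Emb f (cfg N k E) (cfg N k F)) : E ⊆ F := by
  have hE' : ∀ e ∈ E, e.2 < N := fun e he => Finset.mem_range.1 (Finset.mem_product.1 (hE he)).2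
  have bg : Big (cfg N k E) := cfg_big (by omega) hk (by omega) hE'
  have lv := cfg_lv N k F
  have mA : ∀ i < k, pA N i ∈ cfg N k E := fun i hi => mem_cfg.2 (Or.inl ⟨i, hi, rfl⟩)
  have mM : ∀ i < N, pM i ∈ cfg N k E := fun i hi => mem_cfg.2 (Or.inr (Or.inl ⟨i, hi, rfl⟩))
  obtain ⟨e0, he0⟩ := Finset.card_pos.1 (lt_of_le_of_lt (Nat.zero_le _) NE)
  have mC : pC N e0 ∈ cfg N k E := mem_cfg.2 (Or.inr (Or.inr ⟨e0, he0, rfl⟩))
  have lC : (f (pC N e0)).2 = -1 := by
    have := lv_card e lv bg mC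
    rw [show (pC N e0).2 = -1 from rfl, cdC _ _ _ hE'] at this
    rcases lv _ (e.maps mC) with a | a | a
    · rw [a, cdA (by omega)] at this; omega
    · rw [a, cdM] at this; omega
    · exact a
  have lM : ∀ j < N, (f (pM j)).2 = 0 := by
    intro j hj
    have := lv_card e lv bg (mM j hj)
    rw [show (pM j).2 = 0 from rfl, cdM] at this
    rcases lv _ (e.maps (mM j hj)) with a | a | a
    · rw [a, cdA (by omega)] at this; omega
    · exact a
    · have := diff e lv bg (mM j hj) mC (a.trans lC.symm)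
      simp [pM, pC] at this
  have lA : ∀ i < k, (f (pA N i)).2 = 1 := by
    intro i hi
    rcases lv _ (e.maps (mA i hi)) with a | a | a
    · exact a
    · have := diff e lv bg (mA i hi) (mM 0 (by omega)) (a.trans (lM 0 (by omega)).symm)
      simp [pM, pA] at this
    · have := diff e lv bg (mA i hi) mC (a.trans lC.symm)
      simp only [pA, pC] at this
      norm_num at this
  have eA : ∀ i, ∃ j, i < k → j < k ∧ f (pA N i) = pA N j := by
    intro i
    by_cases hi : i < k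
    · have : f (pA N i) ∈ (cfg N k F).filter (fun q => q.2 = 1) :=
        Finset.mem_filter.2 ⟨e.maps (mA i hi), lA i hi⟩
      rw [lvA] at this
      obtain ⟨j, hj, a⟩ := Finset.mem_image.1 this
      exact ⟨j, fun _ => ⟨Finset.mem_range.1 hj, a.symm⟩⟩
    · exact ⟨0, fun a => absurd a hi⟩
  have eM : ∀ i, ∃ j, i < N → j < N ∧ f (pM i) = pM j := by
    intro i
    by_cases hi : i < N
    · have : f (pM i) ∈ (cfg N k F).filter (fun q => q.2 = 0) :=
        Finset.mem_filter.2 ⟨e.maps (mM i hi), lM i hi⟩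
      rw [lvM] at this
      obtain ⟨j, hj, a⟩ := Finset.mem_image.1 this
      exact ⟨j, fun _ => ⟨Finset.mem_range.1 hj, a.symm⟩⟩
    · exact ⟨0, fun a => absurd a hi⟩
  choose α hα using eA
  choose β hβ using eM
  have hN : (0 : ℝ) < N := by exact_mod_cast (by omega : 0 < N)
  have iA := idm k α (fun i hi => (hα i hi).1) (by
    intro i j ij hj
    have hi : i < k := by omega
    have o := e.ori _ (mA i hi) _ (mA j hj) _ (mM 0 (by omega))
    rw [(hα i hi).2, (hα j hj).2, (hβ 0 (by omega)).2] at o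
    have c : (i : ℝ) < j := by exact_mod_cast ij
    have n : det (pA N i) (pA N j) (pM 0) < 0 := by simp only [det, pA, pM]; nlinarith
    rw [orient, orient, sign_neg n, sign_eq_neg_one_iff] at o
    simp only [det, pA, pM] at o
    have : (α i : ℝ) < α j := by nlinarith
    exact_mod_cast this)
  have iM := idm N β (fun i hi => (hβ i hi).1) (by
    intro i j ij hj
    have hi : i < N := by omega
    have o := e.ori _ (mM i hi) _ (mM j hj) _ (mA 0 (by omega))
    rw [(hβ i hi).2, (hβ j hj).2, (hα 0 (by omega)).2] at o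
    have c : (i : ℝ) < j := by exact_mod_cast ij
    have n : 0 < det (pM i) (pM j) (pA N 0) := by simp only [det, pA, pM]; nlinarith
    rw [orient, orient, sign_pos n, sign_eq_one_iff] at o
    simp only [det, pA, pM] at o
    have : (β i : ℝ) < β j := by nlinarith
    exact_mod_cast this)
  rintro ⟨i, j⟩ h
  obtain ⟨hi, hj⟩ := Finset.mem_product.1 (hE h)
  rw [Finset.mem_range] at hi hj
  have := nb_map e lv bg ((nb_iff hE' hi hj).2 h)
  rw [(hα i hi).2, (hβ j hj).2, iA i hi, iM j hj] at this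
  exact (nb_iff hF hi hj).1 this

lemma eqv_equiv : Equivalence Eqv := by
  refine ⟨fun S => ⟨id, bijOn_id _, fun _ _ _ _ _ _ => rfl⟩, ?_, ?_⟩
  · rintro S T ⟨f, hf, o⟩
    have g := hf.symm (hf.invOn_invFunOn).symm
    refine ⟨Function.invFunOn f S, g, fun a ha b hb c hc => ?_⟩
    rw [← o _ (g.mapsTo ha) _ (g.mapsTo hb) _ (g.mapsTo hc), hf.invOn_invFunOn.2 ha,
      hf.invOn_invFunOn.2 hb, hf.invOn_invFunOn.2 hc]
  · rintro S T U ⟨f, hf, o⟩ ⟨g, hg, p⟩
    exact ⟨g ∘ f, hg.comp hf, fun a ha b hb c hc =>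
      (p _ (hf.mapsTo ha) _ (hf.mapsTo hb) _ (hf.mapsTo hc)).trans (o a ha b hb c hc)⟩

lemma fin_quot (n : ℕ) (I : Finset Pt → Prop) :
    Finite (Quot fun S T : {S : Finset Pt // S.card = n ∧ I S} => Eqv S.1 T.1) := by
  classical
  let χ : {S : Finset Pt // S.card = n ∧ I S} → Fin n → Fin n → Fin n → SignType := fun S a b c =>
    orient ((Finset.equivFinOfCardEq S.2.1).symm a) ((Finset.equivFinOfCardEq S.2.1).symm b)
      ((Finset.equivFinOfCardEq S.2.1).symm c)
  refine Finite.of_injective (fun q => χ q.out) fun q r h => ?_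
  rw [← q.out_eq, ← r.out_eq]
  apply Quot.sound
  change χ q.out = χ r.out at h
  generalize q.out = S at h ⊢
  generalize r.out = T at h ⊢
  let e : S.1 ≃ T.1 := (Finset.equivFinOfCardEq S.2.1).trans (Finset.equivFinOfCardEq T.2.1).symm
  let f : Pt → Pt := fun p => if hp : p ∈ S.1 then e ⟨p, hp⟩ else p
  have hf : ∀ p (hp : p ∈ S.1), f p = e ⟨p, hp⟩ := fun p hp => dif_pos hp
  refine ⟨f, ⟨fun p hp => ?_, fun p hp q hq a => ?_, fun p hp => ?_⟩, fun a ha b hb c hc => ?_⟩
  · rw [hf p hp]; exact (e ⟨p, hp⟩).2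
  · rw [hf p hp, hf q hq] at a
    exact congrArg Subtype.val (e.injective (Subtype.ext a))
  · refine ⟨e.symm ⟨p, hp⟩, (e.symm ⟨p, hp⟩).2, ?_⟩
    rw [hf _ (e.symm ⟨p, hp⟩).2]; simp
  · rw [hf a ha, hf b hb, hf c hc]
    have := congrFun (congrFun (congrFun h (Finset.equivFinOfCardEq S.2.1 ⟨a, ha⟩))
      (Finset.equivFinOfCardEq S.2.1 ⟨b, hb⟩)) (Finset.equivFinOfCardEq S.2.1 ⟨c, hc⟩)
    simpa [χ, e] using this.symm

lemma cfg_card {N k : ℕ} {E : Finset (ℕ × ℕ)} (hN : 0 < N) (h : ∀ e ∈ E, e.2 < N) :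
    (cfg N k E).card = k + N + E.card := by
  have a := Finset.card_filter_add_card_filter_not (s := cfg N k E) (fun q => q.2 = 1)
  have b := Finset.card_filter_add_card_filter_not
    (s := (cfg N k E).filter fun q => ¬ q.2 = 1) (fun q => q.2 = 0)
  have e1 : ((cfg N k E).filter fun q => ¬ q.2 = 1).filter (fun q => q.2 = 0) =
      (cfg N k E).filter fun q => q.2 = 0 := by
    ext p
    simp only [Finset.mem_filter]
    exact ⟨fun h => ⟨h.1.1, h.2⟩, fun h => ⟨⟨h.1, by rw [h.2]; norm_num⟩, h.2⟩⟩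
  have e2 : ((cfg N k E).filter fun q => ¬ q.2 = 1).filter (fun q => ¬ q.2 = 0) =
      (cfg N k E).filter fun q => q.2 = -1 := by
    ext p
    simp only [Finset.mem_filter]
    refine ⟨fun h => ⟨h.1.1, ?_⟩, fun h => ⟨⟨h.1, by rw [h.2]; norm_num⟩, by rw [h.2]; norm_num⟩⟩
    have := cfg_lv N k E p h.1.1
    tauto
  rw [e1, e2, cdM, cdC _ _ _ h] at b
  rw [cdA hN] at a
  omega

lemma lower {N k m : ℕ} (hk : 3 < k) (kN : k < N) (Nm : N < m) :
    (k * N).choose m ≤ cnt 6 (k + N + m) := by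
  have := fin_quot (k + N + m) (InC 6)
  have lt : ∀ E : (Finset.range k ×ˢ Finset.range N).powersetCard m, ∀ e ∈ E.1, e.2 < N :=
    fun E e he => Finset.mem_range.1
      (Finset.mem_product.1 ((Finset.mem_powersetCard.1 E.2).1 he)).2
  let g : (Finset.range k ×ˢ Finset.range N).powersetCard m →
      Quot fun S T : {S : Finset Pt // S.card = k + N + m ∧ InC 6 S} => Eqv S.1 T.1 := fun E =>
    Quot.mk _ ⟨cfg N k E.1, by
      rw [cfg_card (by omega) (lt E), (Finset.mem_powersetCard.1 E.2).2], cfg_in _ _ _⟩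
  have inj : Function.Injective g := by
    intro E F h
    have h2 := (Equivalence.eqvGen_iff (eqv_equiv.comap Subtype.val)).1 (Quot.eq.1 h)
    obtain ⟨f, hf, o⟩ := h2
    have a := Finset.mem_powersetCard.1 E.2
    have b := Finset.mem_powersetCard.1 F.2
    exact Subtype.ext (Finset.eq_of_subset_of_card_le
      (rigid hk kN (by omega) a.1 (lt F) ⟨hf.injOn, hf.mapsTo, o⟩) (by omega))
  have := Nat.card_le_card_of_injective g inj
  rwa [Nat.card_eq_fintype_card, Fintype.card_coe, Finset.card_powersetCard, Finset.card_product,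
    Finset.card_range, Finset.card_range] at this

lemma main2 (ε : ℝ) (hε : 0 < ε) :
    ∀ᶠ n : ℕ in atTop, Real.exp ((1 - ε) * n * Real.log n) ≤ (cnt 6 n : ℝ) := by
  obtain ⟨t, ht⟩ := exists_nat_gt (max 4 (4 / ε))
  have t4 : (4 : ℝ) < t := lt_of_le_of_lt (le_max_left _ _) ht
  have tε : 4 < ε * t := by
    have := lt_of_le_of_lt (le_max_right _ _) ht
    rwa [div_lt_iff₀ hε, mul_comm] at this
  have t0 : (0 : ℝ) < t := by linarith
  have lg : Tendsto (fun n : ℕ => Real.log n) atTop atTop :=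
    Real.tendsto_log_atTop.comp tendsto_natCast_atTop_atTop
  filter_upwards [eventually_ge_atTop (8 * t ^ 2), lg.eventually_ge_atTop (t * Real.log (8 * t ^ 2))]
    with n hn hl
  have t4' : 4 < t := by exact_mod_cast t4
  obtain ⟨k, hk⟩ : ∃ k, k = n / t := ⟨_, rfl⟩
  have k1 : k * t ≤ n := hk ▸ Nat.div_mul_le_self n t
  have k2 : n < k * t + t := hk ▸ Nat.lt_div_mul_add (by omega)
  have k8 : 8 * t ≤ k := by
    rw [hk, Nat.le_div_iff_mul_le (by omega)]
    nlinarith
  have k5 : k * 5 ≤ n := le_trans (Nat.mul_le_mul_left k t4') k1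
  obtain ⟨m, hm⟩ : ∃ m, n = k + (k + 1) + m := ⟨n - (k + (k + 1)), by omega⟩
  have lo := lower (k := k) (N := k + 1) (m := m) (by omega) (by omega) (by omega)
  rw [← hm] at lo
  have b := Nat.pow_le_choose (α := ℝ) m (k * (k + 1))
  have hmk : m ≤ k * (k + 1) + 1 := by nlinarith
  rw [Nat.cast_sub hmk] at b
  have K1 : (k : ℝ) * t ≤ n := by exact_mod_cast k1
  have K2 : (n : ℝ) < k * t + t := by exact_mod_cast k2
  have K8 : (8 : ℝ) * t ≤ k := by exact_mod_cast k8
  have M : (n : ℝ) = k + (k + 1) + m := by exact_mod_cast hm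
  have m0 : (0 : ℝ) < m := by exact_mod_cast (by omega : 0 < m)
  have n0 : (0 : ℝ) < n := by linarith
  have T : (0 : ℝ) < 8 * t ^ 2 := by positivity
  have r : (n : ℝ) / (8 * t ^ 2) * m ≤ ((k * (k + 1) + 1 : ℕ) : ℝ) - m := by
    push_cast
    rw [div_mul_eq_mul_div, div_le_iff₀ T]
    have h1 : (n : ℝ) ≤ 2 * (k * t) := by nlinarith
    have h2 : (n : ℝ) * m ≤ (2 * (k * t)) * (2 * (k * t)) :=
      mul_le_mul h1 (by linarith) m0.le (by linarith)
    have h3 : 2 * (m : ℝ) ≤ k * k := by nlinarith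
    nlinarith [mul_le_mul_of_nonneg_right h3 T.le, mul_pos T (by linarith : (0 : ℝ) < k + 1)]
  have f : ((m.factorial : ℕ) : ℝ) ≤ (m : ℝ) ^ m := by exact_mod_cast Nat.factorial_le_pow m
  have c : ((n : ℝ) / (8 * t ^ 2)) ^ m ≤ (cnt 6 n : ℝ) := by
    refine le_trans ?_ (b.trans (by exact_mod_cast lo))
    rw [le_div_iff₀ (by exact_mod_cast m.factorial_pos)]
    calc _ ≤ ((n : ℝ) / (8 * t ^ 2)) ^ m * (m : ℝ) ^ m := by gcongr
      _ = ((n : ℝ) / (8 * t ^ 2) * m) ^ m := (mul_pow _ _ _).symm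
      _ ≤ _ := by gcongr
  refine le_trans ?_ c
  rw [← Real.exp_log (div_pos n0 T), ← Real.exp_nat_mul, Real.exp_le_exp,
    Real.log_div n0.ne' T.ne']
  have L0 : 0 ≤ Real.log (8 * (t : ℝ) ^ 2) := Real.log_nonneg (by nlinarith)
  generalize Real.log (8 * (t : ℝ) ^ 2) = a at *
  generalize Real.log (n : ℝ) = l at *
  have l0 : 0 ≤ l := le_trans (by positivity) hl
  have p1 : (t - 3) * (n : ℝ) ≤ t * m := by nlinarith
  have p2 : (t - 1) * l ≤ t * (l - a) := by nlinarith
  have p3 : ((t - 3) * (n : ℝ)) * ((t - 1) * l) ≤ (t * m) * (t * (l - a)) :=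
    mul_le_mul p1 p2 (mul_nonneg (by linarith) l0) (by positivity)
  have p4 : t * t * (1 - ε) ≤ (t - 3) * (t - 1) := by nlinarith
  have p5 := mul_le_mul_of_nonneg_right p4 (mul_nonneg n0.le l0)
  have : t * t * ((1 - ε) * n * l) ≤ t * t * (m * (l - a)) := by nlinarith
  exact le_of_mul_le_mul_left this (by positivity)

end Pool.Agent.H.MP_708b53_co
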